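import Mathlib
import Pool.Agent.P.MP_365c00_gt.DefsN
import Pool.Agent.K.MP_365c00_gt.C6
import Pool.Agent.K.MP_365c00_gt.C25
import Pool.Agent.K.MP_365c00_gt.C4
import Pool.Agent.P.MP_365c00_gt.WC

open scoped Manifold ContDiff

namespace Pool.Agent.Results.MP_365c00_gt.Full

open Pool.Agent.GeoPairs

/-- Closed connected smooth Riemannian manifolds of any dimension: almost every pair of points is
joined by only finitely many geometrically distinct geodesics iff all unit speed geodesics have a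
common period. -/
theorem result {n : ℕ} {M : Type} [TopologicalSpace M] [T2Space M] [CompactSpace M]
    [ConnectedSpace M] [ChartedSpace (En n) M] [IsManifold 𝓘(ℝ, En n) ∞ M] (g : Met (En n) M) :
    NullPairs (En n) (finPairs g)ᶜ ↔ Besse g := by
  rcases Nat.eq_zero_or_pos n with rfl | hn
  · exact ⟨fun _ => (Fu.besse_zero g).1, fun _ => (Fu.besse_zero g).2⟩
  have hE : Module.finrank ℝ (En n) = n := by simp
  have : Nontrivial (En n) := Module.nontrivial_of_finrank_pos (R := ℝ) (by omega)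
  have : (MeasureTheory.volume : MeasureTheory.Measure (En n × En n)).IsAddHaarMeasure :=
    MeasureTheory.Measure.prod.instIsAddHaarMeasure _ _
  refine ⟨fun h => ?_, fun ⟨τ, hτ, h⟩ x y =>
    GeoN.conv_null (g := g) MeasureTheory.volume hτ h x y⟩
  rcases (show n = 1 ∨ n = 2 ∨ 3 ≤ n by omega) with rfl | rfl | h3
  · exact Fu.besse_one g
  · exact (Pool.Agent.GeoFin.main (M := M) g).1 h
  · obtain ⟨τ, hτ, hp⟩ := Fu.besse_of_fin (g := g) MeasureTheory.volume (by omega) h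
    exact ⟨τ, hτ, fun γ h1 h2 => hp ⟨⟨γ, h1.1.continuous⟩, h1, h2⟩⟩

section checks

variable {n : ℕ} {M : Type} [TopologicalSpace M] [T2Space M] [CompactSpace M]
  [ConnectedSpace M] [ChartedSpace (En n) M] [IsManifold 𝓘(ℝ, En n) ∞ M] (g : Met (En n) M)

/-- Wadsley: a common period exists as soon as every unit speed geodesic is closed. -/
theorem besse_iff_all_closed : Besse g ↔ ∀ γ : ℝ → M, IsGeodesic g γ → UnitSpeed g γ →
    ∃ τ : ℝ, 0 < τ ∧ Function.Periodic γ τ := by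
  refine ⟨fun ⟨τ, hτ, h⟩ γ h1 h2 => ⟨τ, hτ, h γ h1 h2⟩, fun h => ?_⟩
  rcases (show n = 0 ∨ n = 1 ∨ 2 ≤ n by omega) with rfl | rfl | h2
  · exact (Fu.besse_zero g).1
  · exact Fu.besse_one g
  have hE : Module.finrank ℝ (En n) = n := by simp
  have : Nontrivial (En n) := Module.nontrivial_of_finrank_pos (R := ℝ) (by omega)
  obtain ⟨τ, hτ, hp⟩ := GeoN.wc_main (by omega) g fun u => h u.1 u.2.1 u.2.2
  exact ⟨τ, hτ, fun γ h1 h2 => hp ⟨⟨γ, h1.1.continuous⟩, h1, h2⟩⟩

/-- The result with closedness of all geodesics in place of the common period. -/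
theorem full_iff_all_closed : NullPairs (En n) (finPairs g)ᶜ ↔
    ∀ γ : ℝ → M, IsGeodesic g γ → ∃ τ : ℝ, 0 < τ ∧ Function.Periodic γ τ := by
  rw [result g, besse_iff_all_closed g]
  exact ⟨fun h γ h1 => GeoN.wc_scale h h1, fun h γ h1 _ => h γ h1⟩

omit [ConnectedSpace M] in
/-- Exactly one geodesic has a given initial point and a given initial velocity. -/
theorem geodesic_exists_unique (p : M) (v : En n) : ∃! γ : ℝ → M, IsGeodesic g γ ∧ γ 0 = p ∧
    (mfderiv 𝓘(ℝ, ℝ) 𝓘(ℝ, En n) γ 0 (1 : ℝ) : En n) = v :=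
  GeoN.wc_ivp g p v

omit [ConnectedSpace M] in
/-- A geodesic segment on `[0,1]` is the restriction of a geodesic defined on the whole line. -/
theorem segment_extends (γ : ℝ → M)
    (hs : ∀ t ∈ Set.Icc (0 : ℝ) 1, ∃ δ : ℝ → M, ContMDiff 𝓘(ℝ, ℝ) 𝓘(ℝ, En n) ∞ δ ∧
      ∃ ε : ℝ, 0 < ε ∧ ∀ s ∈ Set.Icc (0 : ℝ) 1, |s - t| < ε → γ s = δ s)
    (h : ∀ (x : M) (t : ℝ), 0 < t → t < 1 → γ t ∈ (chart (En n) x).source → ∀ w : En n,
      HasDerivAt (fun s => coef g x (chart (En n) x (γ s)) (deriv (chart (En n) x ∘ γ) s) w)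
        (1 / 2 * fderiv ℝ (fun a => coef g x a (deriv (chart (En n) x ∘ γ) t)
          (deriv (chart (En n) x ∘ γ) t)) (chart (En n) x (γ t)) w) t) :
    ∃ η : ℝ → M, IsGeodesic g η ∧ ∀ t ∈ Set.Icc (0 : ℝ) 1, η t = γ t :=
  GeoN.wc_extend one_pos (GeoN.wc_seg hs).1 (GeoN.wc_seg hs).2 fun x t ht => h x t ht.1 ht.2

omit [T2Space M] [CompactSpace M] [IsManifold 𝓘(ℝ, En n) ∞ M] in
/-- A set of full measure is not null. -/
theorem full_not_null (S : Set (M × M)) (h : NullPairs (En n) (S)ᶜ) : ¬ NullPairs (En n) S :=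
  fun h' => GeoN.wc_not_null (Classical.arbitrary M) (h _ _) (h' _ _)

end checks

end Pool.Agent.Results.MP_365c00_gt.Full
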