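import Mathlib
import Pool.Agent.P.MP_365c00_gt.DefsN
import Pool.Agent.K.MP_365c00_gt.C0

open scoped Manifold ContDiff

namespace Pool.Agent.Results.MP_365c00_gt.Moments

open Pool.Agent.GeoPairs

/-- Closed connected smooth Riemannian manifolds of dimension at least two: the geodesics have a
common period iff `F` has full measure and the number of geometrically distinct geodesics is
locally integrable iff that number has a finite moment near the diagonal. -/
theorem result {n : ℕ} (hn : 2 ≤ n) {M : Type} [TopologicalSpace M] [T2Space M] [CompactSpace M]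
    [ConnectedSpace M] [ChartedSpace (En n) M] [IsManifold 𝓘(ℝ, En n) ∞ M] (g : Met (En n) M) :
    List.TFAE [Besse g, NullPairs (En n) (finPairs g)ᶜ ∧ Integr g, Moment g] := by
  have hE : 2 ≤ Module.finrank ℝ (En n) := by simpa using hn
  have : Nontrivial (En n) := Module.nontrivial_of_finrank_pos (R := ℝ) (by omega)
  have : (MeasureTheory.volume : MeasureTheory.Measure (En n × En n)).IsAddHaarMeasure :=
    MeasureTheory.Measure.prod.instIsAddHaarMeasure _ _
  have h1 : Besse g → Integr g := fun ⟨τ, hτ, h⟩ x y K hK hKt =>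
    GeoN.conv (g := g) MeasureTheory.volume hτ h x y hK hKt
  have h2 : Integr g → Moment g := fun h x => by
    obtain ⟨r, hr, hs⟩ := Metric.nhds_basis_closedBall.mem_iff.1
      ((GeoN.target_open (E := En n) x).mem_nhds (mem_extChartAt_target x))
    have hc := isCompact_closedBall (chart (En n) x x) r
    obtain ⟨φ, -, k1, k2⟩ := h x x _ (hc.prod hc) (Set.prod_mono hs hs)
    refine ⟨1, one_pos, _, Metric.closedBall_mem_nhds _ hr, lt_of_le_of_lt ?_ k1⟩
    refine le_trans (MeasureTheory.setLIntegral_mono' (hc.prod hc).measurableSet fun w hw => ?_)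
      (MeasureTheory.setLIntegral_le_lintegral _ _)
    rw [ENNReal.rpow_one]
    exact k2 w hw
  have h3 : Moment g → Besse g := fun h => GeoN.besse_of_mom (g := g) hE MeasureTheory.volume h
  have h4 : Besse g → NullPairs (En n) (finPairs g)ᶜ := fun ⟨τ, hτ, h⟩ x y =>
    GeoN.conv_null (g := g) MeasureTheory.volume hτ h x y
  tfae_have 1 → 2 := fun h => ⟨h4 h, h1 h⟩
  tfae_have 2 → 3 := fun h => h2 h.2
  tfae_have 3 → 1 := h3
  tfae_finish

end Pool.Agent.Results.MP_365c00_gt.Moments
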